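import Pool.Agent.W323.PT.Stm

/-! Ramsey's theorem for triples. -/

set_option autoImplicit false

namespace Pool.Agent.W15.PT

open Pool.Agent.W323.PT Filter

/-- limits along the hyperfilter -/
theorem lim_ex {κ : Type} [Finite κ] (f : ℕ → κ) :
    ∃ c : κ, ∀ᶠ x in (hyperfilter ℕ : Filter ℕ), f x = c := by
  obtain ⟨c, hc⟩ := Ultrafilter.eq_pure_of_finite ((hyperfilter ℕ).map f)
  refine ⟨c, ?_⟩
  have h : ({c} : Set κ) ∈ (hyperfilter ℕ).map f := by
    rw [hc]
    exact Set.mem_singleton c
  exact h

theorem gt_ev (n : ℕ) : ∀ᶠ x in (hyperfilter ℕ : Filter ℕ), n < x :=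
  Nat.hyperfilter_le_atTop (eventually_gt_atTop n)

/-- homogeneous sequences of length `m` -/
theorem inf_ram {κ : Type} [Finite κ] (χ : ℕ → ℕ → ℕ → κ) (m : ℕ) : ∃ g : ℕ → ℕ,
    (∀ i j, i < j → j < m → g i < g j) ∧
    ∃ col : κ, ∀ i j k, i < j → j < k → k < m → χ (g i) (g j) (g k) = col := by
  choose c2 h2 using fun i j => lim_ex (fun k => χ i j k)
  choose c1 h1 using fun i => lim_ex (fun j => c2 i j)
  obtain ⟨c0, h0⟩ := lim_ex c1
  have key : ∀ m : ℕ, ∃ g : ℕ → ℕ, (∀ i j, i < j → j < m → g i < g j) ∧
      (∀ i, i < m → c1 (g i) = c0) ∧ (∀ i j, i < j → j < m → c2 (g i) (g j) = c0) ∧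
      ∀ i j k, i < j → j < k → k < m → χ (g i) (g j) (g k) = c0 := by
    intro m
    induction m with
    | zero => exact ⟨id, by omega, by omega, by omega, by omega⟩
    | succ m ih =>
      obtain ⟨g, g1, g2, g3, g4⟩ := ih
      have e1 : ∀ᶠ x in (hyperfilter ℕ : Filter ℕ), ∀ i ∈ Finset.range m, g i < x :=
        (eventually_all_finset _).mpr fun i _ => gt_ev (g i)
      have e2 : ∀ᶠ x in (hyperfilter ℕ : Filter ℕ), ∀ i ∈ Finset.range m, c2 (g i) x = c0 :=
        (eventually_all_finset _).mpr fun i hi => by
          have := h1 (g i)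
          rwa [g2 i (Finset.mem_range.mp hi)] at this
      have e3 : ∀ᶠ x in (hyperfilter ℕ : Filter ℕ), ∀ j ∈ Finset.range m,
          ∀ i ∈ Finset.range j, χ (g i) (g j) x = c0 :=
        (eventually_all_finset _).mpr fun j hj => (eventually_all_finset _).mpr fun i hi => by
          have := h2 (g i) (g j)
          rwa [g3 i j (Finset.mem_range.mp hi) (Finset.mem_range.mp hj)] at this
      obtain ⟨x, ⟨⟨hx0, hx1⟩, hx2⟩, hx3⟩ := (((h0.and e1).and e2).and e3).exists
      refine ⟨Function.update g m x, ?_, ?_, ?_, ?_⟩
      · intro i j hij hj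
        rw [Function.update_of_ne (by omega)]
        rcases Nat.lt_or_ge j m with h | h
        · rw [Function.update_of_ne (by omega)]
          exact g1 i j hij h
        · have : j = m := by omega
          subst this
          rw [Function.update_self]
          exact hx1 i (Finset.mem_range.mpr hij)
      · intro i hi
        rcases Nat.lt_or_ge i m with h | h
        · rw [Function.update_of_ne (by omega)]
          exact g2 i h
        · have : i = m := by omega
          subst this
          rw [Function.update_self]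
          exact hx0
      · intro i j hij hj
        rw [Function.update_of_ne (by omega : i ≠ m)]
        rcases Nat.lt_or_ge j m with h | h
        · rw [Function.update_of_ne (by omega)]
          exact g3 i j hij h
        · have : j = m := by omega
          subst this
          rw [Function.update_self]
          exact hx2 i (Finset.mem_range.mpr hij)
      · intro i j k hij hjk hk
        rw [Function.update_of_ne (by omega : i ≠ m), Function.update_of_ne (by omega : j ≠ m)]
        rcases Nat.lt_or_ge k m with h | h
        · rw [Function.update_of_ne (by omega)]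
          exact g4 i j k hij hjk h
        · have : k = m := by omega
          subst this
          rw [Function.update_self]
          exact hx3 j (Finset.mem_range.mpr hjk) i (Finset.mem_range.mpr hij)
  obtain ⟨g, g1, -, -, g4⟩ := key m
  exact ⟨g, g1, c0, g4⟩

/-- Ramsey's theorem for triples -/
theorem ram : S_Ram := by
  intro κ _ m
  by_contra hcon
  push Not at hcon
  choose X hX using hcon
  choose χ hχ using fun i j k => lim_ex (fun M => X M i j k)
  obtain ⟨g, g1, c, g2⟩ := inf_ram χ m
  have e1 : ∀ᶠ M in (hyperfilter ℕ : Filter ℕ), ∀ i ∈ Finset.range m, g i < M :=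
    (eventually_all_finset _).mpr fun i _ => gt_ev (g i)
  have e2 : ∀ᶠ M in (hyperfilter ℕ : Filter ℕ), ∀ k ∈ Finset.range m, ∀ j ∈ Finset.range k,
      ∀ i ∈ Finset.range j, X M (g i) (g j) (g k) = c :=
    (eventually_all_finset _).mpr fun k hk => (eventually_all_finset _).mpr fun j hj =>
      (eventually_all_finset _).mpr fun i hi => by
        have := hχ (g i) (g j) (g k)
        rwa [g2 i j k (Finset.mem_range.mp hi) (Finset.mem_range.mp hj)
          (Finset.mem_range.mp hk)] at this
  obtain ⟨M, hM1, hM2⟩ := (e1.and e2).exists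
  obtain ⟨i, j, k, hij, hjk, hk, hne⟩ := hX M g g1 (fun i hi => hM1 i (Finset.mem_range.mpr hi)) c
  exact hne (hM2 k (Finset.mem_range.mpr hk) j (Finset.mem_range.mpr hjk) i
    (Finset.mem_range.mpr hij))

end Pool.Agent.W15.PT
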